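import Pool.Agent.Q294.Greedy.Proc

open MeasureTheory ProbabilityTheory Filter Topology
open scoped ENNReal

set_option linter.unusedSectionVars false
set_option linter.deprecated false

namespace Q294.Greedy

variable {V : Type*} [Fintype V] [DecidableEq V] [MeasurableSpace V] [MeasurableSingletonClass V]
variable {Ω : Type*} [MeasurableSpace Ω] {P : Measure Ω} {X : ℕ → Ω → V} {x₀ : V}

section
variable {G : SimpleGraph V} [DecidableRel G.Adj]

lemma insert_of_stuck {x y : V} {U : Finset (Sym2 V)} (h : fresh G x U = ∅) (hxy : G.Adj x y) :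
    insert s(x, y) U = U := by
  rw [Finset.insert_eq_self]
  by_contra hc
  have : y ∈ fresh G x U := by
    unfold fresh
    rw [Finset.mem_filter, SimpleGraph.mem_neighborFinset]
    exact ⟨hxy, hc⟩
  rw [h] at this
  simp at this

lemma measurableSet_stuck (hX : ∀ t, Measurable (X t)) (t : ℕ) :
    MeasurableSet {ω | fresh G (X t ω) (crossed (fun i => X i ω) t) = ∅} := by
  have := measurable_state (X := X) hX t
    (fun x U => if fresh G x U = ∅ then (1 : ℝ≥0∞) else 0)
  have h2 := this (measurableSet_singleton 1)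
  convert h2 using 1
  ext ω
  simp only [Set.mem_setOf_eq, Set.mem_preimage, Set.mem_singleton_iff]
  by_cases hs : fresh G (X t ω) (crossed (fun i => X i ω) t) = ∅ <;> simp [hs]

/-- One step of the walk, in terms of the state. -/
lemma step_eq (hW : IsGreedyWalk G P X x₀) (t : ℕ) (F : V → Finset (Sym2 V) → ℝ≥0∞) :
    ∫⁻ ω, F (X (t + 1) ω) (crossed (fun i => X i ω) (t + 1)) ∂P =
    ∫⁻ ω, (if fresh G (X t ω) (crossed (fun i => X i ω) t) = ∅ then
        ∑ y, unif (G.neighborFinset (X t ω)) y * F y (crossed (fun i => X i ω) t)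
        else F (X (t + 1) ω) (crossed (fun i => X i ω) (t + 1))) ∂P := by
  have hst := measurableSet_stuck (G := G) hW.meas t
  have hb := measurable_state (X := X) hW.meas (t + 1) F
  have hc := measurable_state (X := X) hW.meas t
    (fun x U => ∑ y, unif (G.neighborFinset x) y * F y U)
  have h1 : ∀ (a b : Ω → ℝ≥0∞), Measurable b →
      ∫⁻ ω, (if fresh G (X t ω) (crossed (fun i => X i ω) t) = ∅ then a ω else b ω) ∂P =
      ∫⁻ ω, (if fresh G (X t ω) (crossed (fun i => X i ω) t) = ∅ then a ω else 0) ∂P +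
      ∫⁻ ω, (if fresh G (X t ω) (crossed (fun i => X i ω) t) = ∅ then 0 else b ω) ∂P := by
    intro a b hbm
    rw [← lintegral_add_right]
    · refine lintegral_congr fun ω => ?_
      split_ifs <;> simp
    · exact Measurable.ite hst measurable_const hbm
  rw [h1 _ _ hb, ← stuck_identity hW t (fun _ y U => F y U)]
  have h2 : ∫⁻ ω, (if fresh G (X t ω) (crossed (fun i => X i ω) t) = ∅ then
        F (X (t + 1) ω) (crossed (fun i => X i ω) t) else 0) ∂P =
      ∫⁻ ω, (if fresh G (X t ω) (crossed (fun i => X i ω) t) = ∅ then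
        F (X (t + 1) ω) (crossed (fun i => X i ω) (t + 1)) else 0) ∂P := by
    refine lintegral_congr_ae ?_
    filter_upwards [ae_adj hW t] with ω hω
    split_ifs with hs
    · rw [crossed_succ, insert_of_stuck hs hω]
    · rfl
  rw [h2, ← h1 _ _ hb]
  refine lintegral_congr fun ω => ?_
  split_ifs <;> rfl

end

/-- expected indicator that the walk has not finished at time `t` -/
noncomputable def cc (P : Measure Ω) (X : ℕ → Ω → V) (t : ℕ) : ℝ≥0∞ :=
  ∫⁻ ω, (if rr (crossed (fun i => X i ω) t) ≠ 0 then 1 else 0) ∂P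

lemma avg_eq (x : V) (hn : 2 ≤ Fintype.card V) (g : V → ℝ) (hg : ∀ y, 0 ≤ g y) :
    ∑ y, unif ((⊤ : SimpleGraph V).neighborFinset x) y * ENNReal.ofReal (g y) =
      ENNReal.ofReal ((∑ y ∈ Finset.univ.erase x, g y) / ((Fintype.card V : ℝ) - 1)) := by
  have hnb : (⊤ : SimpleGraph V).neighborFinset x = Finset.univ.erase x := by
    ext y
    simp [ne_comm]
  have hpos : (0 : ℝ) < (Fintype.card V : ℝ) - 1 := by
    have : (2 : ℝ) ≤ Fintype.card V := by exact_mod_cast hn
    linarith
  have hc : ((Finset.univ.erase x).card : ℝ≥0∞)⁻¹ =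
      ENNReal.ofReal (1 / ((Fintype.card V : ℝ) - 1)) := by
    rw [Finset.card_erase_of_mem (Finset.mem_univ x), Finset.card_univ, one_div,
      ENNReal.ofReal_inv_of_pos hpos]
    congr 1
    have : ((Fintype.card V : ℝ) - 1) = ((Fintype.card V - 1 : ℕ) : ℝ) := by
      rw [Nat.cast_sub (by omega)]; simp
    rw [this, ENNReal.ofReal_natCast]
  rw [hnb]
  unfold unif
  simp only [ite_mul, zero_mul]
  rw [← Finset.sum_filter]
  have hf : (Finset.univ.filter fun y => y ∈ Finset.univ.erase x) = Finset.univ.erase x := by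
    ext y; simp
  rw [hf, ← Finset.mul_sum, hc, ← ENNReal.ofReal_sum_of_nonneg (fun y _ => hg y),
    ← ENNReal.ofReal_mul (by positivity)]
  congr 1
  ring

section
variable [Nonempty V]

lemma lower_step (hW : IsGreedyWalk (⊤ : SimpleGraph V) P X x₀) (hn : 2 ≤ Fintype.card V)
    (t : ℕ) :
    ∫⁻ ω, ENNReal.ofReal (Phi (X t ω) (crossed (fun i => X i ω) t)) ∂P ≤
    ∫⁻ ω, ENNReal.ofReal (Phi (X (t + 1) ω) (crossed (fun i => X i ω) (t + 1))) ∂P +
      cc P X t := by
  have hpos : (0 : ℝ) < (Fintype.card V : ℝ) - 1 := by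
    have : (2 : ℝ) ≤ Fintype.card V := by exact_mod_cast hn
    linarith
  rw [step_eq hW t (fun x U => ENNReal.ofReal (Phi x U))]
  unfold cc
  rw [← lintegral_add_right]
  · refine lintegral_mono_ae ?_
    filter_upwards [hW.greedy t] with ω hω
    split_ifs with hs hr hr
    · rw [avg_eq _ hn _ (fun y => Phi_nonneg y _)]
      have h0 : (1 : ℝ≥0∞) = ENNReal.ofReal 1 := by simp
      rw [h0, ← ENNReal.ofReal_add (div_nonneg (Finset.sum_nonneg fun y _ => Phi_nonneg y _)
        hpos.le) zero_le_one]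
      apply ENNReal.ofReal_le_ofReal
      have := Phi_stuck hs hn
      rw [← sub_le_iff_le_add, le_div_iff₀ hpos]
      linarith
    · push Not at hr
      rw [Phi_of_rr_zero hr]; simp
    · have h := hω (Finset.nonempty_iff_ne_empty.2 hs)
      rw [Phi_fresh h, crossed_succ, ENNReal.ofReal_add (Phi_nonneg _ _) zero_le_one]
      simp
    · push Not at hr
      rw [Phi_of_rr_zero hr]; simp
  · exact measurable_state (X := X) hW.meas t (fun _ U => if rr U ≠ 0 then 1 else 0)

lemma upper_step (hW : IsGreedyWalk (⊤ : SimpleGraph V) P X x₀) (hn : 2 ≤ Fintype.card V)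
    (t : ℕ) :
    ∫⁻ ω, ENNReal.ofReal (Psi (X (t + 1) ω) (crossed (fun i => X i ω) (t + 1))) ∂P +
      cc P X t ≤
    ∫⁻ ω, ENNReal.ofReal (Psi (X t ω) (crossed (fun i => X i ω) t)) ∂P := by
  have hpos : (0 : ℝ) < (Fintype.card V : ℝ) - 1 := by
    have : (2 : ℝ) ≤ Fintype.card V := by exact_mod_cast hn
    linarith
  rw [step_eq hW t (fun x U => ENNReal.ofReal (Psi x U))]
  unfold cc
  rw [← lintegral_add_right]
  · refine lintegral_mono_ae ?_
    filter_upwards [hW.greedy t] with ω hω
    have h0 : (1 : ℝ≥0∞) = ENNReal.ofReal 1 := by simp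
    split_ifs with hs hr hr
    · rw [avg_eq _ hn _ (fun y => Psi_nonneg y _)]
      rw [h0, ← ENNReal.ofReal_add (div_nonneg (Finset.sum_nonneg fun y _ => Psi_nonneg y _)
        hpos.le) zero_le_one]
      apply ENNReal.ofReal_le_ofReal
      have := Psi_stuck hs hr hn
      rw [← le_sub_iff_add_le, div_le_iff₀ hpos]
      linarith
    · push Not at hr
      have hz : ∀ y : V, Psi y (crossed (fun i => X i ω) t) = 0 := by
        intro y
        unfold Psi
        rw [hr]; simp
      simp [hz]
    · have h := hω (Finset.nonempty_iff_ne_empty.2 hs)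
      rw [crossed_succ, h0, ← ENNReal.ofReal_add (Psi_nonneg _ _) zero_le_one]
      exact ENNReal.ofReal_le_ofReal (Psi_fresh h hn)
    · exfalso
      push Not at hr
      have hd := deg_of_rr_zero hr (X t ω)
      unfold deg at hd
      rw [Finset.card_eq_zero] at hd
      exact hs hd
  · exact measurable_state (X := X) hW.meas t (fun _ U => if rr U ≠ 0 then 1 else 0)

lemma init_eq [IsProbabilityMeasure P] (hW : IsGreedyWalk (⊤ : SimpleGraph V) P X x₀)
    (F : V → Finset (Sym2 V) → ℝ≥0∞) :
    ∫⁻ ω, F (X 0 ω) (crossed (fun i => X i ω) 0) ∂P = F x₀ ∅ := by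
  have : ∫⁻ ω, F (X 0 ω) (crossed (fun i => X i ω) 0) ∂P = ∫⁻ _, F x₀ ∅ ∂P := by
    refine lintegral_congr_ae ?_
    filter_upwards [hW.start] with ω hω
    rw [crossed_zero, hω]
  rw [this]; simp

lemma lower_sum [IsProbabilityMeasure P] (hW : IsGreedyWalk (⊤ : SimpleGraph V) P X x₀)
    (hn : 2 ≤ Fintype.card V) :
    ENNReal.ofReal (Phi x₀ ∅) ≤ ∑' t, cc P X t := by
  by_cases hfin : ∑' t, cc P X t = ⊤
  · rw [hfin]; exact le_top
  have h1 : ∀ T, ENNReal.ofReal (Phi x₀ ∅) ≤
      ∫⁻ ω, ENNReal.ofReal (Phi (X T ω) (crossed (fun i => X i ω) T)) ∂P +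
        ∑ t ∈ Finset.range T, cc P X t := by
    intro T
    induction T with
    | zero =>
      rw [init_eq hW (fun x U => ENNReal.ofReal (Phi x U))]; simp
    | succ T ih =>
      refine ih.trans ?_
      rw [Finset.sum_range_succ, add_comm (∑ t ∈ Finset.range T, cc P X t), ← add_assoc]
      gcongr
      exact lower_step hW hn T
  set B : ℝ≥0∞ := ∑ x : V, ∑ U : Finset (Sym2 V), ENNReal.ofReal (Phi x U) with hB
  have hBfin : B ≠ ⊤ := by
    rw [hB]
    exact (ENNReal.sum_lt_top.2 fun x _ => ENNReal.sum_lt_top.2 fun U _ =>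
      ENNReal.ofReal_lt_top).ne
  have h2 : ∀ T, ∫⁻ ω, ENNReal.ofReal (Phi (X T ω) (crossed (fun i => X i ω) T)) ∂P ≤
      B * cc P X T := by
    intro T
    unfold cc
    rw [← lintegral_const_mul]
    · refine lintegral_mono fun ω => ?_
      simp only
      split_ifs with hr
      · rw [mul_one, hB]
        calc ENNReal.ofReal (Phi (X T ω) (crossed (fun i => X i ω) T))
            ≤ ∑ U : Finset (Sym2 V), ENNReal.ofReal (Phi (X T ω) U) :=
              Finset.single_le_sum (f := fun U : Finset (Sym2 V) =>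
                ENNReal.ofReal (Phi (X T ω) U)) (fun _ _ => zero_le) (Finset.mem_univ _)
          _ ≤ _ := Finset.single_le_sum (f := fun x : V => ∑ U : Finset (Sym2 V),
              ENNReal.ofReal (Phi x U)) (fun _ _ => zero_le) (Finset.mem_univ _)
      · push Not at hr
        rw [Phi_of_rr_zero hr]; simp
    · exact measurable_state (X := X) hW.meas T (fun _ U => if rr U ≠ 0 then 1 else 0)
  have h3 : Tendsto (fun T => B * cc P X T + ∑ t ∈ Finset.range T, cc P X t) atTop
      (𝓝 (B * 0 + ∑' t, cc P X t)) := by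
    refine Tendsto.add ?_ ENNReal.summable.hasSum.tendsto_sum_nat
    exact ENNReal.Tendsto.const_mul (ENNReal.tendsto_atTop_zero_of_tsum_ne_top hfin)
      (Or.inr hBfin)
  rw [mul_zero, zero_add] at h3
  exact ge_of_tendsto' h3 fun T => (h1 T).trans (add_le_add (h2 T) le_rfl)

lemma upper_sum [IsProbabilityMeasure P] (hW : IsGreedyWalk (⊤ : SimpleGraph V) P X x₀)
    (hn : 2 ≤ Fintype.card V) :
    ∑' t, cc P X t ≤ ENNReal.ofReal (Psi x₀ ∅) := by
  have h1 : ∀ T, ∫⁻ ω, ENNReal.ofReal (Psi (X T ω) (crossed (fun i => X i ω) T)) ∂P +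
        ∑ t ∈ Finset.range T, cc P X t ≤ ENNReal.ofReal (Psi x₀ ∅) := by
    intro T
    induction T with
    | zero =>
      rw [init_eq hW (fun x U => ENNReal.ofReal (Psi x U))]; simp
    | succ T ih =>
      refine le_trans ?_ ih
      rw [Finset.sum_range_succ, add_comm (∑ t ∈ Finset.range T, cc P X t), ← add_assoc]
      gcongr
      exact upper_step hW hn T
  rw [ENNReal.tsum_eq_iSup_nat]
  exact iSup_le fun T => le_trans le_add_self (h1 T)

/-- pathwise: the cover time counts the unfinished times -/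
lemma coverTime_eq {w : ℕ → V} (hw : ∀ t, (⊤ : SimpleGraph V).Adj (w t) (w (t + 1))) :
    ((coverTime (⊤ : SimpleGraph V) w : ℕ∞) : ℝ≥0∞) =
      ∑' t, (if rr (crossed w t) ≠ 0 then (1 : ℝ≥0∞) else 0) := by
  have hsub : ∀ t, crossed w t ⊆ (⊤ : SimpleGraph V).edgeFinset := by
    intro t e he
    unfold crossed at he
    rw [Finset.mem_image] at he
    obtain ⟨s, -, rfl⟩ := he
    rw [SimpleGraph.mem_edgeFinset, SimpleGraph.mem_edgeSet]
    exact hw s
  have hiff : ∀ t, crossed w t = (⊤ : SimpleGraph V).edgeFinset ↔ rr (crossed w t) = 0 := by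
    intro t
    rw [rr_eq_zero_iff]
    exact ⟨fun h => h ▸ subset_rfl, fun h => (hsub t).antisymm h⟩
  have hmono : ∀ s t, s ≤ t → rr (crossed w s) = 0 → rr (crossed w t) = 0 := by
    intro s t hst h
    rw [rr_eq_zero_iff] at h ⊢
    exact h.trans (crossed_mono w hst)
  by_cases hex : ∃ t, rr (crossed w t) = 0
  · set N := Nat.find hex with hN
    have hNs : rr (crossed w N) = 0 := Nat.find_spec hex
    have hNm : ∀ t, t < N → rr (crossed w t) ≠ 0 := fun t ht => Nat.find_min hex ht
    have h1 : coverTime (⊤ : SimpleGraph V) w = (N : ℕ∞) := by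
      unfold coverTime
      apply le_antisymm
      · exact iInf₂_le N ((hiff N).2 hNs)
      · refine le_iInf₂ fun t ht => ?_
        have : ¬ t < N := fun hlt => hNm t hlt ((hiff t).1 ht)
        exact_mod_cast not_lt.1 this
    have h2 : ∑' t, (if rr (crossed w t) ≠ 0 then (1 : ℝ≥0∞) else 0) = N := by
      rw [tsum_eq_sum (s := Finset.range N)]
      · rw [Finset.sum_congr rfl (g := fun _ => (1 : ℝ≥0∞))]
        · simp
        · intro t ht
          rw [if_pos (hNm t (Finset.mem_range.1 ht))]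
      · intro t ht
        rw [if_neg]
        push Not
        exact hmono N t (by simpa using ht) hNs
    rw [h1, h2]; simp
  · push Not at hex
    have h1 : coverTime (⊤ : SimpleGraph V) w = ⊤ := by
      unfold coverTime
      rw [iInf_eq_top]
      intro t
      rw [iInf_eq_top]
      intro ht
      exact absurd ((hiff t).1 ht) (hex t)
    have h2 : ∑' t, (if rr (crossed w t) ≠ 0 then (1 : ℝ≥0∞) else 0) = ⊤ := by
      simp only [ne_eq, hex, not_false_eq_true, if_true]
      exact ENNReal.tsum_const_eq_top_of_ne_zero one_ne_zero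
    rw [h1, h2]; simp

lemma expCover_eq (hW : IsGreedyWalk (⊤ : SimpleGraph V) P X x₀) :
    expCover (⊤ : SimpleGraph V) P X = ∑' t, cc P X t := by
  unfold expCover cc
  rw [← lintegral_tsum]
  · refine lintegral_congr_ae ?_
    filter_upwards [ae_all_iff.2 fun t => ae_adj hW t] with ω hω
    exact coverTime_eq hω
  · intro t
    exact (measurable_state (X := X) hW.meas t
      (fun _ U => if rr U ≠ 0 then 1 else 0)).aemeasurable

theorem lower_bound [IsProbabilityMeasure P] (hW : IsGreedyWalk (⊤ : SimpleGraph V) P X x₀)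
    (hn : 2 ≤ Fintype.card V) (he : Even (Fintype.card V)) :
    ENNReal.ofReal ((Fintype.card V).choose 2 +
      ((Fintype.card V : ℝ) - 1) / 2 * (harmonic (Fintype.card V / 2 - 1) : ℝ)) ≤
      expCover (⊤ : SimpleGraph V) P X := by
  rw [expCover_eq hW, ← Phi_empty x₀ he]
  exact lower_sum hW hn

theorem finite_bound [IsProbabilityMeasure P] (hW : IsGreedyWalk (⊤ : SimpleGraph V) P X x₀)
    (hn : 2 ≤ Fintype.card V) : expCover (⊤ : SimpleGraph V) P X < ⊤ := by
  rw [expCover_eq hW]
  exact lt_of_le_of_lt (upper_sum hW hn) ENNReal.ofReal_lt_top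

end

end Q294.Greedy
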