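import Mathlib

/-!
# The greedy random walk on a finite graph (MP_3173ec)

Definitions: crossed edges, the fresh neighbours, the greedy random walk with the uniform rule,
greedy walks with an arbitrary rule, the edge cover time.
-/

open MeasureTheory ProbabilityTheory
open scoped ENNReal

namespace Q294.Greedy

variable {V : Type*} [Fintype V] [DecidableEq V]

/-- The edges crossed by the path `w` up to time `t` (the set `H_t`). -/
def crossed (w : ℕ → V) (t : ℕ) : Finset (Sym2 V) :=
  (Finset.range t).image fun s => s(w s, w (s + 1))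

/-- The neighbours `y` of `x` such that the edge `{x, y}` is not in `U`
(the other endpoints of the edges in `J_t(x)` when `U = H_t`). -/
def fresh (G : SimpleGraph V) [DecidableRel G.Adj] (x : V) (U : Finset (Sym2 V)) : Finset V :=
  (G.neighborFinset x).filter fun y => s(x, y) ∉ U

/-- The set from which the greedy random walk with the uniform rule chooses its next vertex
uniformly at random when it is at `x` and has crossed exactly the edges in `U`. -/
def nextSet (G : SimpleGraph V) [DecidableRel G.Adj] (x : V) (U : Finset (Sym2 V)) : Finset V :=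
  if (fresh G x U).Nonempty then fresh G x U else G.neighborFinset x

/-- The uniform probability of `y` in the finite set `S`. -/
noncomputable def unif (S : Finset V) (y : V) : ℝ≥0∞ :=
  if y ∈ S then ((S.card : ℝ≥0∞))⁻¹ else 0

/-- `X` is a greedy random walk on `G` with the uniform rule, started at `x₀`:
given `X_0, …, X_t`, the next vertex is uniform on `nextSet`. -/
structure IsGRW (G : SimpleGraph V) [DecidableRel G.Adj] [MeasurableSpace V]
    {Ω : Type*} [MeasurableSpace Ω] (P : Measure Ω) (X : ℕ → Ω → V) (x₀ : V) : Prop where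
  meas : ∀ t, Measurable (X t)
  start : ∀ᵐ ω ∂P, X 0 ω = x₀
  step : ∀ (w : ℕ → V) (t : ℕ),
    P {ω | ∀ i ≤ t + 1, X i ω = w i} =
      P {ω | ∀ i ≤ t, X i ω = w i} * unif (nextSet G (w t) (crossed w t)) (w (t + 1))

/-- `X` is a greedy walk on `G` started at `x₀` for *some* rule (deterministic or random,
possibly depending on the whole history) of choosing among the uncrossed edges:
if there is an uncrossed edge at the current vertex, it crosses one of them; if there is none,
then given `X_0, …, X_t` the next vertex is a uniform neighbour. -/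
structure IsGreedyWalk (G : SimpleGraph V) [DecidableRel G.Adj] [MeasurableSpace V]
    {Ω : Type*} [MeasurableSpace Ω] (P : Measure Ω) (X : ℕ → Ω → V) (x₀ : V) : Prop where
  meas : ∀ t, Measurable (X t)
  start : ∀ᵐ ω ∂P, X 0 ω = x₀
  greedy : ∀ t, ∀ᵐ ω ∂P, (fresh G (X t ω) (crossed (fun i => X i ω) t)).Nonempty →
    X (t + 1) ω ∈ fresh G (X t ω) (crossed (fun i => X i ω) t)
  stuck : ∀ (w : ℕ → V) (t : ℕ), fresh G (w t) (crossed w t) = ∅ →
    P {ω | ∀ i ≤ t + 1, X i ω = w i} =
      P {ω | ∀ i ≤ t, X i ω = w i} * unif (G.neighborFinset (w t)) (w (t + 1))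

/-- The edge cover time of the path `w`: the first `t` with `H_t = E` (`⊤` if there is none). -/
noncomputable def coverTime (G : SimpleGraph V) [DecidableRel G.Adj] (w : ℕ → V) : ℕ∞ :=
  ⨅ (t : ℕ) (_ : crossed w t = G.edgeFinset), (t : ℕ∞)

/-- The expected edge cover time `E[C_E(G)]` of the process `X`, in `[0, ∞]`. -/
noncomputable def expCover (G : SimpleGraph V) [DecidableRel G.Adj]
    {Ω : Type*} [MeasurableSpace Ω] (P : Measure Ω) (X : ℕ → Ω → V) : ℝ≥0∞ :=
  ∫⁻ ω, ((coverTime G fun t => X t ω : ℕ∞) : ℝ≥0∞) ∂P

end Q294.Greedy
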