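import Pool.Agent.Q294.Greedy.Defs

open MeasureTheory ProbabilityTheory
open scoped ENNReal

namespace Q294.Greedy

variable {V : Type*} [Fintype V] [DecidableEq V]

/-- residual degree -/
def deg (U : Finset (Sym2 V)) (v : V) : ℕ := (fresh (⊤ : SimpleGraph V) v U).card

/-- number of odd-residual-degree vertices other than `x` -/
def kk (x : V) (U : Finset (Sym2 V)) : ℕ :=
  (Finset.univ.filter fun v => v ≠ x ∧ Odd (deg U v)).card

/-- number of odd vertices -/
def oo (U : Finset (Sym2 V)) : ℕ := (Finset.univ.filter fun v : V => Odd (deg U v)).card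

/-- number of uncrossed edges -/
def rr (U : Finset (Sym2 V)) : ℕ := ((⊤ : SimpleGraph V).edgeFinset \ U).card

lemma mem_fresh {x y : V} {U : Finset (Sym2 V)} :
    y ∈ fresh (⊤ : SimpleGraph V) x U ↔ x ≠ y ∧ s(x, y) ∉ U := by
  unfold fresh
  rw [Finset.mem_filter, SimpleGraph.mem_neighborFinset, SimpleGraph.top_adj]

lemma oo_even (U : Finset (Sym2 V)) : Even (oo U) := by
  classical
  have h := ((⊤ : SimpleGraph V).deleteEdges (U : Set (Sym2 V))).even_card_odd_degree_vertices
  unfold oo
  convert h using 4 with v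
  unfold deg
  rw [← SimpleGraph.card_neighborFinset_eq_degree]
  congr 1
  ext y
  simp [mem_fresh]

lemma oo_eq (x : V) (U : Finset (Sym2 V)) : oo U = kk x U + if Odd (deg U x) then 1 else 0 := by
  unfold oo kk
  by_cases h : Odd (deg U x)
  · rw [if_pos h]
    have : (Finset.univ.filter fun v : V => Odd (deg U v)) =
        insert x (Finset.univ.filter fun v => v ≠ x ∧ Odd (deg U v)) := by
      ext v
      by_cases hv : v = x
      · subst hv; simp [h]
      · simp [hv]
    rw [this, Finset.card_insert_of_notMem (by simp)]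
  · rw [if_neg h, add_zero]
    congr 1
    ext v
    by_cases hv : v = x
    · subst hv; simp [h]
    · simp [hv]

lemma fresh_insert_left {x y : V} (U : Finset (Sym2 V)) (hxy : x ≠ y) :
    fresh (⊤ : SimpleGraph V) x (insert s(x, y) U) = (fresh (⊤ : SimpleGraph V) x U).erase y := by
  ext z
  simp only [mem_fresh, Finset.mem_insert, Finset.mem_erase, Sym2.eq_iff]
  constructor
  · rintro ⟨h1, h2⟩
    exact ⟨fun h => h2 (Or.inl (Or.inl ⟨trivial, h⟩)), h1, fun h => h2 (Or.inr h)⟩
  · rintro ⟨h1, h2, h3⟩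
    refine ⟨h2, ?_⟩
    rintro ((⟨-, h⟩ | ⟨h, -⟩) | h)
    · exact h1 h
    · exact hxy h
    · exact h3 h

lemma fresh_insert_right {x y : V} (U : Finset (Sym2 V)) (hxy : x ≠ y) :
    fresh (⊤ : SimpleGraph V) y (insert s(x, y) U) = (fresh (⊤ : SimpleGraph V) y U).erase x := by
  rw [Sym2.eq_swap]
  exact fresh_insert_left U hxy.symm

lemma fresh_insert_other {x y v : V} (U : Finset (Sym2 V)) (hx : v ≠ x) (hy : v ≠ y) :
    fresh (⊤ : SimpleGraph V) v (insert s(x, y) U) = fresh (⊤ : SimpleGraph V) v U := by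
  ext z
  simp only [mem_fresh, Finset.mem_insert, Sym2.eq_iff]
  constructor
  · rintro ⟨h1, h3⟩
    exact ⟨h1, fun h => h3 (Or.inr h)⟩
  · rintro ⟨h1, h3⟩
    refine ⟨h1, ?_⟩
    rintro ((⟨h, -⟩ | ⟨h, -⟩) | h)
    · exact hx h
    · exact hy h
    · exact h3 h

lemma deg_insert_left {x y : V} {U : Finset (Sym2 V)} (h : y ∈ fresh (⊤ : SimpleGraph V) x U) :
    deg (insert s(x, y) U) x + 1 = deg U x := by
  unfold deg
  rw [fresh_insert_left U (mem_fresh.1 h).1, Finset.card_erase_add_one h]

lemma mem_fresh_symm {x y : V} {U : Finset (Sym2 V)} (h : y ∈ fresh (⊤ : SimpleGraph V) x U) :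
    x ∈ fresh (⊤ : SimpleGraph V) y U := by
  rw [mem_fresh] at h ⊢
  refine ⟨h.1.symm, ?_⟩
  rw [Sym2.eq_swap]
  exact h.2

lemma deg_insert_right {x y : V} {U : Finset (Sym2 V)} (h : y ∈ fresh (⊤ : SimpleGraph V) x U) :
    deg (insert s(x, y) U) y + 1 = deg U y := by
  unfold deg
  rw [fresh_insert_right U (mem_fresh.1 h).1, Finset.card_erase_add_one (mem_fresh_symm h)]

lemma deg_insert_other {x y v : V} (U : Finset (Sym2 V)) (hx : v ≠ x) (hy : v ≠ y) :
    deg (insert s(x, y) U) v = deg U v := by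
  unfold deg
  rw [fresh_insert_other U hx hy]

/-- along a fresh step, `⌊k/2⌋` does not change -/
lemma kk_step {x y : V} {U : Finset (Sym2 V)} (h : y ∈ fresh (⊤ : SimpleGraph V) x U) :
    kk y (insert s(x, y) U) / 2 = kk x U / 2 := by
  have hxy : x ≠ y := (mem_fresh.1 h).1
  -- the number of odd vertices outside {x, y}
  set Z : ℕ := (Finset.univ.filter fun v => v ≠ x ∧ v ≠ y ∧ Odd (deg U v)).card with hZ
  have h1 : kk x U = Z + if Odd (deg U y) then 1 else 0 := by
    unfold kk
    by_cases ho : Odd (deg U y)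
    · rw [if_pos ho]
      have : (Finset.univ.filter fun v => v ≠ x ∧ Odd (deg U v)) =
          insert y (Finset.univ.filter fun v => v ≠ x ∧ v ≠ y ∧ Odd (deg U v)) := by
        ext v
        by_cases hv : v = y
        · subst hv; simp [ho, hxy.symm]
        · simp [hv]
      rw [this, Finset.card_insert_of_notMem (by simp)]
    · rw [if_neg ho, add_zero, hZ]
      congr 1
      ext v
      by_cases hv : v = y
      · subst hv; simp [ho]
      · simp [hv]
  have h2 : kk y (insert s(x, y) U) = Z + if Odd (deg U x) then 0 else 1 := by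
    unfold kk
    have hd := deg_insert_left h
    have hpar : Odd (deg (insert s(x, y) U) x) ↔ ¬ Odd (deg U x) := by
      rw [← hd, Nat.odd_add_one, not_not]
    have hdv : ∀ v, v ≠ x → v ≠ y → deg (insert s(x, y) U) v = deg U v :=
      fun v hx hy => deg_insert_other U hx hy
    by_cases ho : Odd (deg U x)
    · rw [if_pos ho, add_zero, hZ]
      congr 1
      ext v
      by_cases hv : v = x
      · subst hv; simp [hpar, ho]
      · by_cases hv' : v = y
        · simp [hv']
        · simp [hv, hv', hdv v hv hv']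
    · rw [if_neg ho]
      have : (Finset.univ.filter fun v => v ≠ y ∧ Odd (deg (insert s(x, y) U) v)) =
          insert x (Finset.univ.filter fun v => v ≠ x ∧ v ≠ y ∧ Odd (deg U v)) := by
        ext v
        by_cases hv : v = x
        · subst hv; simp [hpar, ho, hxy]
        · by_cases hv' : v = y
          · simp [hv', hxy.symm]
          · simp [hv, hv', hdv v hv hv']
      rw [this, Finset.card_insert_of_notMem (by simp)]
  have h3 := oo_even U
  rw [oo_eq x U, h1] at h3
  rw [h1, h2]
  by_cases hx : Odd (deg U x) <;> by_cases hy : Odd (deg U y) <;>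
    simp only [hx, hy, if_true, if_false] at h3 ⊢ <;>
    simp only [Nat.even_iff] at h3 <;> omega

lemma rr_step {x y : V} {U : Finset (Sym2 V)} (h : y ∈ fresh (⊤ : SimpleGraph V) x U) :
    rr (insert s(x, y) U) + 1 = rr U := by
  unfold rr
  have hm : s(x, y) ∈ (⊤ : SimpleGraph V).edgeFinset \ U := by
    rw [Finset.mem_sdiff]
    refine ⟨?_, (mem_fresh.1 h).2⟩
    simp [(mem_fresh.1 h).1]
  have : (⊤ : SimpleGraph V).edgeFinset \ insert s(x, y) U =
      ((⊤ : SimpleGraph V).edgeFinset \ U).erase s(x, y) := by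
    ext e
    simp only [Finset.mem_sdiff, Finset.mem_insert, Finset.mem_erase, not_or]
    tauto
  rw [this, Finset.card_erase_add_one hm]

/-- the state is finished when all edges are crossed -/
lemma rr_eq_zero_iff {U : Finset (Sym2 V)} : rr U = 0 ↔ (⊤ : SimpleGraph V).edgeFinset ⊆ U := by
  unfold rr
  rw [Finset.card_eq_zero, Finset.sdiff_eq_empty_iff_subset]

lemma deg_of_rr_zero {U : Finset (Sym2 V)} (h : rr U = 0) (v : V) : deg U v = 0 := by
  rw [rr_eq_zero_iff] at h
  unfold deg
  rw [Finset.card_eq_zero]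
  ext y
  simp only [mem_fresh, Finset.notMem_empty, iff_false, not_and, not_not]
  intro hy
  apply h
  simp [hy]

lemma kk_of_rr_zero {U : Finset (Sym2 V)} (h : rr U = 0) (x : V) : kk x U = 0 := by
  unfold kk
  rw [Finset.card_eq_zero]
  ext v
  simp [deg_of_rr_zero h v]

/-- the number of active vertices is at least two when an edge is uncrossed -/
lemma two_le_active {U : Finset (Sym2 V)} (h : rr U ≠ 0) :
    2 ≤ (Finset.univ.filter fun v : V => (fresh (⊤ : SimpleGraph V) v U).Nonempty).card := by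
  rw [Ne, rr_eq_zero_iff, Finset.not_subset] at h
  obtain ⟨e, he, heU⟩ := h
  induction e using Sym2.ind with
  | _ x y =>
    have hxy : x ≠ y := by simpa using he
    have hy : y ∈ fresh (⊤ : SimpleGraph V) x U := mem_fresh.2 ⟨hxy, heU⟩
    have hx := mem_fresh_symm hy
    have : ({x, y} : Finset V) ⊆
        (Finset.univ.filter fun v : V => (fresh (⊤ : SimpleGraph V) v U).Nonempty) := by
      intro v hv
      simp only [Finset.mem_insert, Finset.mem_singleton] at hv
      rcases hv with rfl | rfl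
      · simp only [Finset.mem_filter, Finset.mem_univ, true_and]; exact ⟨_, hy⟩
      · simp only [Finset.mem_filter, Finset.mem_univ, true_and]; exact ⟨_, hx⟩
    calc 2 = ({x, y} : Finset V).card := (Finset.card_pair hxy).symm
      _ ≤ _ := Finset.card_le_card this

/-- **The potential.** -/
noncomputable def Phi (x : V) (U : Finset (Sym2 V)) : ℝ :=
  rr U + ((Fintype.card V : ℝ) - 1) / 2 * (harmonic (kk x U / 2) : ℝ)

lemma harmonic_nonneg (m : ℕ) : (0 : ℝ) ≤ (harmonic m : ℝ) := by
  have : (0 : ℚ) ≤ harmonic m := by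
    unfold harmonic
    positivity
  exact_mod_cast this

lemma Phi_nonneg [Nonempty V] (x : V) (U : Finset (Sym2 V)) : 0 ≤ Phi x U := by
  unfold Phi
  have h1 : (1 : ℝ) ≤ Fintype.card V := by
    have := Fintype.card_pos (α := V)
    exact_mod_cast this
  have := harmonic_nonneg (kk x U / 2)
  have h2 : (0 : ℝ) ≤ ((Fintype.card V : ℝ) - 1) / 2 := by linarith
  positivity

lemma Phi_of_rr_zero {U : Finset (Sym2 V)} (h : rr U = 0) (x : V) : Phi x U = 0 := by
  unfold Phi
  rw [h, kk_of_rr_zero h]
  simp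

lemma Phi_fresh {x y : V} {U : Finset (Sym2 V)} (h : y ∈ fresh (⊤ : SimpleGraph V) x U) :
    Phi x U = Phi y (insert s(x, y) U) + 1 := by
  unfold Phi
  rw [kk_step h]
  have := rr_step h
  have h2 : (rr U : ℝ) = rr (insert s(x, y) U) + 1 := by exact_mod_cast this.symm
  rw [h2]; ring

/-- the stuck step: the average over the other vertices loses at most one -/
lemma Phi_stuck {x : V} {U : Finset (Sym2 V)} (h : fresh (⊤ : SimpleGraph V) x U = ∅)
    (hn : 2 ≤ Fintype.card V) :
    ((Fintype.card V : ℝ) - 1) * Phi x U ≤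
      ∑ y ∈ Finset.univ.erase x, Phi y U + ((Fintype.card V : ℝ) - 1) := by
  have hd : deg U x = 0 := by unfold deg; rw [h]; rfl
  have hk : kk x U = oo U := by
    rw [oo_eq x U, hd]; simp
  have hcard : ((Finset.univ.erase x).card : ℝ) = (Fintype.card V : ℝ) - 1 := by
    rw [Finset.card_erase_of_mem (Finset.mem_univ x), Finset.card_univ]
    rw [Nat.cast_sub (by omega)]; simp
  obtain ⟨m, hm⟩ := oo_even U
  have hky : ∀ y, kk y U / 2 = if Odd (deg U y) then m - 1 else m := by
    intro y
    have := oo_eq y U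
    by_cases ho : Odd (deg U y)
    · rw [if_pos ho] at this ⊢; omega
    · rw [if_neg ho] at this ⊢; omega
  have hH : ∀ y, (harmonic (kk y U / 2) : ℝ) = (harmonic m : ℝ) -
      if Odd (deg U y) then (1 : ℝ) / m else 0 := by
    intro y
    rw [hky]
    by_cases ho : Odd (deg U y)
    · rw [if_pos ho, if_pos ho]
      have hpos : 1 ≤ m := by
        have : 0 < oo U := by
          unfold oo
          rw [Finset.card_pos]
          exact ⟨y, by simpa using ho⟩
        omega
      obtain ⟨j, rfl⟩ : ∃ j, m = j + 1 := ⟨m - 1, by omega⟩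
      rw [harmonic_succ]
      push_cast
      simp
    · rw [if_neg ho, if_neg ho]; simp
  unfold Phi
  simp only [hH]
  rw [Finset.sum_add_distrib, Finset.sum_const, nsmul_eq_mul, hcard, ← Finset.mul_sum,
    Finset.sum_sub_distrib, Finset.sum_const, nsmul_eq_mul, hcard]
  have hsum : ∑ y ∈ Finset.univ.erase x, (if Odd (deg U y) then (1 : ℝ) / m else 0) =
      oo U * ((1 : ℝ) / m) := by
    rw [← Finset.sum_filter, Finset.sum_const, nsmul_eq_mul]
    congr 2
    unfold oo
    congr 1
    ext v
    by_cases hv : v = x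
    · subst hv; simp [hd]
    · simp [hv]
  rw [hsum, hd]
  have hle : (oo U : ℝ) * ((1 : ℝ) / m) ≤ 2 := by
    rw [hm]
    by_cases hm0 : m = 0
    · subst hm0; simp
    · have : (m : ℝ) ≠ 0 := by exact_mod_cast hm0
      push_cast
      field_simp
      linarith
  have h1 : (1 : ℝ) ≤ Fintype.card V := by
    have : 1 ≤ Fintype.card V := by omega
    exact_mod_cast this
  simp only [Nat.not_odd_zero, if_false, sub_zero]
  nlinarith [hle, h1]

/-- The upper potential (for finiteness). -/
noncomputable def Psi (x : V) (U : Finset (Sym2 V)) : ℝ :=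
  (Fintype.card V : ℝ) * rr U +
    if rr U ≠ 0 ∧ fresh (⊤ : SimpleGraph V) x U = ∅ then ((Fintype.card V : ℝ) - 1) / 2 else 0

lemma Psi_nonneg [Nonempty V] (x : V) (U : Finset (Sym2 V)) : 0 ≤ Psi x U := by
  unfold Psi
  have h1 : (1 : ℝ) ≤ Fintype.card V := by
    have := Fintype.card_pos (α := V)
    exact_mod_cast this
  have h2 : (0 : ℝ) ≤ ((Fintype.card V : ℝ) - 1) / 2 := by linarith
  split_ifs <;> positivity

lemma Psi_fresh {x y : V} {U : Finset (Sym2 V)} (h : y ∈ fresh (⊤ : SimpleGraph V) x U)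
    (hn : 2 ≤ Fintype.card V) :
    Psi y (insert s(x, y) U) + 1 ≤ Psi x U := by
  have h1 : (2 : ℝ) ≤ Fintype.card V := by exact_mod_cast hn
  have hr := rr_step h
  have h2 : (rr U : ℝ) = rr (insert s(x, y) U) + 1 := by exact_mod_cast hr.symm
  have hne : ¬ (fresh (⊤ : SimpleGraph V) x U = ∅) := by
    intro h0; rw [h0] at h; simp at h
  unfold Psi
  rw [h2]
  simp only [hne, and_false, if_false, add_zero]
  split_ifs <;> nlinarith

lemma Psi_stuck {x : V} {U : Finset (Sym2 V)} (h : fresh (⊤ : SimpleGraph V) x U = ∅)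
    (hr : rr U ≠ 0) (hn : 2 ≤ Fintype.card V) :
    ∑ y ∈ Finset.univ.erase x, Psi y U + ((Fintype.card V : ℝ) - 1) ≤
    ((Fintype.card V : ℝ) - 1) * Psi x U := by
  have hcard : ((Finset.univ.erase x).card : ℝ) = (Fintype.card V : ℝ) - 1 := by
    rw [Finset.card_erase_of_mem (Finset.mem_univ x), Finset.card_univ]
    rw [Nat.cast_sub (by omega)]; simp
  have h1 : (2 : ℝ) ≤ Fintype.card V := by exact_mod_cast hn
  have ha := two_le_active hr
  set a : ℕ := (Finset.univ.filter fun v : V => (fresh (⊤ : SimpleGraph V) v U).Nonempty).card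
    with hadef
  have ha' : (2 : ℝ) ≤ a := by exact_mod_cast ha
  unfold Psi
  simp only [hr, ne_eq, not_false_iff, true_and, h, if_true]
  rw [Finset.sum_add_distrib, Finset.sum_const, nsmul_eq_mul, hcard]
  have hsum : ∑ y ∈ Finset.univ.erase x,
      (if fresh (⊤ : SimpleGraph V) y U = ∅ then ((Fintype.card V : ℝ) - 1) / 2 else 0) =
      ((Fintype.card V : ℝ) - 1 - a) * (((Fintype.card V : ℝ) - 1) / 2) := by
    rw [← Finset.sum_filter, Finset.sum_const, nsmul_eq_mul]
    congr 1
    have h3 : (Finset.univ.erase x).filter (fun y => ¬ fresh (⊤ : SimpleGraph V) y U = ∅) =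
        (Finset.univ.filter fun v : V => (fresh (⊤ : SimpleGraph V) v U).Nonempty) := by
      ext v
      by_cases hv : v = x
      · subst hv; simp [h]
      · simp [hv, Finset.nonempty_iff_ne_empty]
    have h4 := Finset.card_filter_add_card_filter_not (s := Finset.univ.erase x)
      (fun y => fresh (⊤ : SimpleGraph V) y U = ∅)
    rw [h3] at h4
    have h5 : (((Finset.univ.erase x).filter fun y => fresh (⊤ : SimpleGraph V) y U = ∅).card : ℝ)
        + a = (Fintype.card V : ℝ) - 1 := by
      rw [← hcard, hadef]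
      exact_mod_cast h4
    linarith
  rw [hsum]
  nlinarith

lemma deg_empty (v : V) : deg (∅ : Finset (Sym2 V)) v = Fintype.card V - 1 := by
  unfold deg
  have : fresh (⊤ : SimpleGraph V) v ∅ = Finset.univ.erase v := by
    ext y
    simp [mem_fresh, ne_comm]
  rw [this, Finset.card_erase_of_mem (Finset.mem_univ v), Finset.card_univ]

lemma kk_empty (x : V) (he : Even (Fintype.card V)) :
    kk x (∅ : Finset (Sym2 V)) / 2 = Fintype.card V / 2 - 1 := by
  have hpos : 0 < Fintype.card V := Fintype.card_pos_iff.2 ⟨x⟩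
  obtain ⟨m, hm⟩ := he
  have hodd : Odd (Fintype.card V - 1) := by
    rw [hm]
    exact ⟨m - 1, by omega⟩
  have : kk x (∅ : Finset (Sym2 V)) = Fintype.card V - 1 := by
    unfold kk
    have : (Finset.univ.filter fun v => v ≠ x ∧ Odd (deg (∅ : Finset (Sym2 V)) v)) =
        Finset.univ.erase x := by
      ext v
      simp [deg_empty, hodd]
    rw [this, Finset.card_erase_of_mem (Finset.mem_univ x), Finset.card_univ]
  rw [this]
  omega

lemma rr_empty : rr (∅ : Finset (Sym2 V)) = (Fintype.card V).choose 2 := by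
  unfold rr
  rw [Finset.sdiff_empty]
  exact SimpleGraph.card_edgeFinset_top_eq_card_choose_two

lemma Phi_empty (x : V) (he : Even (Fintype.card V)) :
    Phi x ∅ = (Fintype.card V).choose 2 +
      ((Fintype.card V : ℝ) - 1) / 2 * (harmonic (Fintype.card V / 2 - 1) : ℝ) := by
  unfold Phi
  rw [kk_empty x he, rr_empty]

end Q294.Greedy
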