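import Pool.Agent.Q294.Greedy.Bound

open MeasureTheory ProbabilityTheory Filter Topology
open scoped ENNReal

set_option linter.unusedSectionVars false
set_option linter.deprecated false

namespace Q294.Greedy

variable {V : Type*} [Fintype V] [DecidableEq V] [MeasurableSpace V] [MeasurableSingletonClass V]
variable {G : SimpleGraph V} [DecidableRel G.Adj]

lemma IsGRW.isGreedyWalk {Ω : Type*} [MeasurableSpace Ω] {P : Measure Ω} {X : ℕ → Ω → V} {x₀ : V}
    (h : IsGRW G P X x₀) : IsGreedyWalk G P X x₀ where
  meas := h.meas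
  start := h.start
  greedy t := by
    have h1 : ∀ᵐ ω ∂P, ∀ p : Fin (t + 1 + 1) → V, (∀ i ≤ t + 1, X i ω = ext p i) →
        unif (nextSet G (ext p t) (crossed (ext p) t)) (ext p (t + 1)) ≠ 0 := by
      rw [ae_all_iff]
      intro p
      by_cases hz : unif (nextSet G (ext p t) (crossed (ext p) t)) (ext p (t + 1)) = 0
      · have := h.step (ext p) t
        rw [hz, mul_zero] at this
        filter_upwards [measure_eq_zero_iff_ae_notMem.1 this] with ω hω hc
        exact absurd hc hω
      · filter_upwards with ω _
        exact hz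
    filter_upwards [h1] with ω hω hne
    have h2 : ∀ i ≤ t + 1, X i ω = ext (fun i : Fin (t + 1 + 1) => X i ω) i := by
      intro i hi
      unfold ext
      rw [dif_pos (by omega)]
    have h3 := hω _ h2
    rw [← h2 (t + 1) le_rfl, ← h2 t (by omega),
      ← crossed_congr (w := fun i => X i ω) (t := t) (fun i hi => h2 i (by omega))] at h3
    unfold unif at h3
    have h4 : X (t + 1) ω ∈ nextSet G (X t ω) (crossed (fun i => X i ω) t) := by
      by_contra hc
      rw [if_neg hc] at h3
      exact h3 rfl
    unfold nextSet at h4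
    rwa [if_pos hne] at h4
  stuck w t hs := by
    have := h.step w t
    unfold nextSet at this
    rwa [if_neg (by rw [hs]; simp)] at this

/-! ### existence -/

/-- the state after `t` steps, driven by choices `ω (t, S) ∈ S` -/
def stt (G : SimpleGraph V) [DecidableRel G.Adj] (x₀ : V) (ω : ℕ × Finset V → V) :
    ℕ → V × Finset (Sym2 V)
  | 0 => (x₀, ∅)
  | t + 1 =>
    (ω (t, nextSet G (stt G x₀ ω t).1 (stt G x₀ ω t).2),
      insert s((stt G x₀ ω t).1, ω (t, nextSet G (stt G x₀ ω t).1 (stt G x₀ ω t).2))
        (stt G x₀ ω t).2)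

def XX (G : SimpleGraph V) [DecidableRel G.Adj] (x₀ : V) (t : ℕ) (ω : ℕ × Finset V → V) : V :=
  (stt G x₀ ω t).1

lemma stt_snd (x₀ : V) (ω : ℕ × Finset V → V) (t : ℕ) :
    (stt G x₀ ω t).2 = crossed (fun i => XX G x₀ i ω) t := by
  induction t with
  | zero => simp [stt, crossed_zero]
  | succ t ih =>
    rw [crossed_succ, ← ih]
    rfl

lemma XX_succ (x₀ : V) (ω : ℕ × Finset V → V) (t : ℕ) :
    XX G x₀ (t + 1) ω =
      ω (t, nextSet G (XX G x₀ t ω) (crossed (fun i => XX G x₀ i ω) t)) := by
  rw [← stt_snd]
  rfl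

/-- the path event is a cylinder event -/
lemma pe_iff (x₀ : V) (w : ℕ → V) (t : ℕ) (ω : ℕ × Finset V → V) :
    (∀ i ≤ t, XX G x₀ i ω = w i) ↔
      x₀ = w 0 ∧ ∀ i < t, ω (i, nextSet G (w i) (crossed w i)) = w (i + 1) := by
  induction t with
  | zero =>
    simp [XX, stt]
  | succ t ih =>
    constructor
    · intro h
      obtain ⟨h0, h1⟩ := ih.1 fun i hi => h i (by omega)
      refine ⟨h0, fun i hi => ?_⟩
      rcases Nat.lt_succ_iff_lt_or_eq.1 hi with hi' | rfl
      · exact h1 i hi'
      · have h2 := h (i + 1) le_rfl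
        rw [XX_succ, h i (by omega),
          crossed_congr (w := fun j => XX G x₀ j ω) (w' := w) (fun j hj => h j (by omega))] at h2
        exact h2
    · rintro ⟨h0, h1⟩
      have h2 := ih.2 ⟨h0, fun i hi => h1 i (by omega)⟩
      intro i hi
      rcases Nat.lt_or_ge i (t + 1) with hi' | hi'
      · exact h2 i (by omega)
      · have : i = t + 1 := by omega
        subst this
        rw [XX_succ, h2 t le_rfl,
          crossed_congr (w := fun j => XX G x₀ j ω) (w' := w) (fun j hj => h2 j hj)]
        exact h1 t (by omega)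

open Classical in
/-- the uniform measure on `S` (a point mass if `S` is empty) -/
noncomputable def mS [Nonempty V] (S : Finset V) : Measure V :=
  if h : S.Nonempty then (PMF.uniformOfFinset S h).toMeasure
  else Measure.dirac (Classical.arbitrary V)

instance [Nonempty V] (S : Finset V) : IsProbabilityMeasure (mS S) := by
  unfold mS
  split_ifs <;> infer_instance

lemma mS_singleton [Nonempty V] (S : Finset V) (hS : S.Nonempty) (y : V) :
    mS S {y} = unif S y := by
  unfold mS unif
  rw [dif_pos hS, PMF.toMeasure_apply_singleton _ _ (measurableSet_singleton y),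
    PMF.uniformOfFinset_apply]
  by_cases hy : y ∈ S <;> simp [hy]

/-- the driving measure -/
noncomputable def QQ [Nonempty V] : Measure (ℕ × Finset V → V) :=
  Measure.infinitePi fun q : ℕ × Finset V => mS q.2

instance [Nonempty V] : IsProbabilityMeasure (QQ (V := V)) := by
  unfold QQ; infer_instance

lemma measurable_XX (x₀ : V) (t : ℕ) : Measurable (XX G x₀ t) := by
  have h : ∀ t, ∀ s : V × Finset (Sym2 V), MeasurableSet {ω | stt G x₀ ω t = s} := by
    intro t
    induction t with
    | zero => intro s; simp [stt]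
    | succ t ih =>
      intro s
      have : {ω | stt G x₀ ω (t + 1) = s} = ⋃ r : V × Finset (Sym2 V),
          {ω | stt G x₀ ω t = r} ∩
          {ω | (ω (t, nextSet G r.1 r.2), insert s(r.1, ω (t, nextSet G r.1 r.2)) r.2) = s} := by
        ext ω
        simp only [Set.mem_setOf_eq, Set.mem_iUnion, Set.mem_inter_iff]
        constructor
        · intro h
          exact ⟨stt G x₀ ω t, rfl, h⟩
        · rintro ⟨r, h1, h2⟩
          rw [← h1] at h2
          exact h2
      rw [this]
      refine MeasurableSet.iUnion fun r => (ih r).inter ?_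
      have hm : Measurable fun ω : ℕ × Finset V → V => ω (t, nextSet G r.1 r.2) :=
        measurable_pi_apply _
      have : {ω : ℕ × Finset V → V |
          (ω (t, nextSet G r.1 r.2), insert s(r.1, ω (t, nextSet G r.1 r.2)) r.2) = s} =
          (fun ω : ℕ × Finset V → V => ω (t, nextSet G r.1 r.2)) ⁻¹'
            {y | (y, insert s(r.1, y) r.2) = s} := rfl
      rw [this]
      exact hm (Set.toFinite _).measurableSet
  refine measurable_to_countable' fun y => ?_
  have : XX G x₀ t ⁻¹' {y} = ⋃ U : Finset (Sym2 V), {ω | stt G x₀ ω t = (y, U)} := by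
    ext ω
    simp only [Set.mem_preimage, Set.mem_singleton_iff, Set.mem_iUnion, Set.mem_setOf_eq, XX]
    constructor
    · intro h
      exact ⟨(stt G x₀ ω t).2, by rw [← h]⟩
    · rintro ⟨U, h⟩
      rw [h]
  rw [this]
  exact MeasurableSet.iUnion fun U => h t _

lemma QQ_pe [Nonempty V] (hG : ∀ x, (G.neighborFinset x).Nonempty) (x₀ : V) (w : ℕ → V) (t : ℕ) :
    QQ {ω | ∀ i ≤ t, XX G x₀ i ω = w i} =
      if x₀ = w 0 then ∏ i ∈ Finset.range t,
        unif (nextSet G (w i) (crossed w i)) (w (i + 1)) else 0 := by
  split_ifs with h0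
  · set e : ℕ → ℕ × Finset V := fun i => (i, nextSet G (w i) (crossed w i)) with he
    have hinj : Function.Injective e := fun i j hij => (Prod.ext_iff.1 hij).1
    have hset : {ω | ∀ i ≤ t, XX G x₀ i ω = w i} =
        Set.pi (((Finset.range t).image e : Finset (ℕ × Finset V)) : Set (ℕ × Finset V))
          (fun q => {w (q.1 + 1)}) := by
      ext ω
      simp only [Set.mem_setOf_eq, pe_iff, Set.mem_pi, Finset.coe_image, Set.mem_image,
        Finset.coe_range, Set.mem_Iio, Set.mem_singleton_iff]
      constructor
      · rintro ⟨-, h⟩ q ⟨i, hi, rfl⟩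
        exact h i hi
      · intro h
        exact ⟨h0, fun i hi => h (e i) ⟨i, hi, rfl⟩⟩
    rw [hset]
    unfold QQ
    rw [Measure.infinitePi_pi]
    · rw [Finset.prod_image fun i _ j _ hij => hinj hij]
      refine Finset.prod_congr rfl fun i _ => ?_
      rw [mS_singleton]
      simp only [he]
      unfold nextSet
      split_ifs with hf
      · exact hf
      · exact hG _
    · intro q _
      exact measurableSet_singleton _
  · have : {ω | ∀ i ≤ t, XX G x₀ i ω = w i} = ∅ := by
      ext ω
      simp only [Set.mem_setOf_eq, pe_iff, Set.mem_empty_iff_false, iff_false]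
      tauto
    rw [this]; simp

theorem exists_GRW [Nonempty V] (hG : ∀ x, (G.neighborFinset x).Nonempty) (x₀ : V) :
    IsGRW G (QQ (V := V)) (XX G x₀) x₀ where
  meas := measurable_XX x₀
  start := by
    filter_upwards with ω
    rfl
  step w t := by
    rw [QQ_pe hG, QQ_pe hG]
    split_ifs
    · rw [Finset.prod_range_succ]
    · simp

end Q294.Greedy
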