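import Pool.Agent.Q294.Greedy.Det

open MeasureTheory ProbabilityTheory
open scoped ENNReal

set_option linter.unusedSectionVars false
set_option linter.deprecated false

namespace Q294.Greedy

variable {V : Type*} [Fintype V] [DecidableEq V]

lemma crossed_congr {w w' : ℕ → V} {t : ℕ} (h : ∀ i ≤ t, w i = w' i) :
    crossed w t = crossed w' t := by
  unfold crossed
  apply Finset.image_congr
  intro s hs
  have hs' : s < t := by simpa using hs
  simp only
  rw [h s hs'.le, h (s + 1) hs']

lemma crossed_succ (w : ℕ → V) (t : ℕ) :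
    crossed w (t + 1) = insert s(w t, w (t + 1)) (crossed w t) := by
  unfold crossed
  rw [Finset.range_add_one, Finset.image_insert]

lemma crossed_zero (w : ℕ → V) : crossed w 0 = ∅ := by
  simp [crossed]

lemma crossed_mono (w : ℕ → V) {s t : ℕ} (h : s ≤ t) : crossed w s ⊆ crossed w t := by
  unfold crossed
  apply Finset.image_subset_image
  intro i hi
  simp only [Finset.mem_range] at hi ⊢
  omega

variable [MeasurableSpace V] [MeasurableSingletonClass V]
variable {Ω : Type*} [MeasurableSpace Ω] {P : Measure Ω} {X : ℕ → Ω → V} {x₀ : V}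

/-- extension of a finite path -/
def ext {t : ℕ} (p : Fin (t + 1) → V) : ℕ → V :=
  fun i => if h : i < t + 1 then p ⟨i, h⟩ else p 0

lemma measurableSet_pe (hX : ∀ t, Measurable (X t)) (w : ℕ → V) (t : ℕ) :
    MeasurableSet {ω | ∀ i ≤ t, X i ω = w i} := by
  have : {ω | ∀ i ≤ t, X i ω = w i} = ⋂ i ∈ Finset.range (t + 1), X i ⁻¹' {w i} := by
    ext ω
    simp [Nat.lt_succ_iff]
  rw [this]
  exact Finset.measurableSet_biInter _ fun i _ => hX i (measurableSet_singleton _)

lemma lintegral_paths (hX : ∀ t, Measurable (X t)) (t : ℕ) (f : Ω → ℝ≥0∞) :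
    ∫⁻ ω, f ω ∂P = ∑ p : Fin (t + 1) → V, ∫⁻ ω in {ω | ∀ i ≤ t, X i ω = ext p i}, f ω ∂P := by
  have hU : (⋃ p : Fin (t + 1) → V, {ω | ∀ i ≤ t, X i ω = ext p i}) = Set.univ := by
    ext ω
    simp only [Set.mem_iUnion, Set.mem_univ, iff_true]
    refine ⟨fun i => X i ω, fun i hi => ?_⟩
    unfold ext
    rw [dif_pos (by omega)]
  have hd : Pairwise (Function.onFun Disjoint
      fun p : Fin (t + 1) → V => {ω | ∀ i ≤ t, X i ω = ext p i}) := by
    intro p q hpq
    rw [Function.onFun, Set.disjoint_left]
    intro ω hp hq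
    apply hpq
    funext i
    have h1 := hp i (by omega)
    have h2 := hq i (by omega)
    rw [h1] at h2
    unfold ext at h2
    rw [dif_pos i.2, dif_pos i.2] at h2
    exact h2
  rw [← setLIntegral_univ, ← hU, lintegral_iUnion (fun p => measurableSet_pe hX _ _) hd,
    tsum_fintype]

/-- state-level functions are measurable -/
lemma measurable_state (hX : ∀ t, Measurable (X t)) (t : ℕ) (F : V → Finset (Sym2 V) → ℝ≥0∞) :
    Measurable fun ω => F (X t ω) (crossed (fun i => X i ω) t) := by
  have h1 : Measurable fun ω => (fun i : Fin (t + 1) => X i ω) :=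
    measurable_pi_lambda _ fun i => hX i
  have h2 : Measurable fun p : Fin (t + 1) → V => F (ext p t) (crossed (ext p) t) :=
    Measurable.of_discrete
  have h3 := h2.comp h1
  convert h3 using 2 with ω
  simp only [Function.comp]
  have h4 : ∀ i ≤ t, X i ω = ext (fun i : Fin (t + 1) => X i ω) i := by
    intro i hi
    unfold ext
    rw [dif_pos (by omega)]
  rw [← h4 t le_rfl]
  congr 1
  exact crossed_congr h4

lemma setLIntegral_next (hX : ∀ t, Measurable (X t)) (A : Set Ω) (hA : MeasurableSet A) (t : ℕ)
    (g : V → ℝ≥0∞) :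
    ∫⁻ ω in A, g (X t ω) ∂P = ∑ y, g y * P (A ∩ {ω | X t ω = y}) := by
  rw [← lintegral_map (μ := P.restrict A) (f := g) Measurable.of_discrete (hX t),
    lintegral_fintype]
  refine Finset.sum_congr rfl fun y _ => ?_
  rw [Measure.map_apply (hX t) (measurableSet_singleton _), Measure.restrict_apply
    (hX t (measurableSet_singleton _)), Set.inter_comm]
  rfl

variable {G : SimpleGraph V} [DecidableRel G.Adj]

/-- The one-step identity at the stuck times. -/
lemma stuck_identity (hW : IsGreedyWalk G P X x₀) (t : ℕ)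
    (f : V → V → Finset (Sym2 V) → ℝ≥0∞) :
    ∫⁻ ω, (if fresh G (X t ω) (crossed (fun i => X i ω) t) = ∅ then
        f (X t ω) (X (t + 1) ω) (crossed (fun i => X i ω) t) else 0) ∂P =
    ∫⁻ ω, (if fresh G (X t ω) (crossed (fun i => X i ω) t) = ∅ then
        ∑ y, unif (G.neighborFinset (X t ω)) y * f (X t ω) y (crossed (fun i => X i ω) t)
        else 0) ∂P := by
  rw [lintegral_paths hW.meas t, lintegral_paths hW.meas t]
  refine Finset.sum_congr rfl fun p _ => ?_
  set w : ℕ → V := ext p with hw
  have hA := measurableSet_pe hW.meas w t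
  by_cases hs : fresh G (w t) (crossed w t) = ∅
  · have e1 : ∫⁻ ω in {ω | ∀ i ≤ t, X i ω = w i},
        (if fresh G (X t ω) (crossed (fun i => X i ω) t) = ∅ then
        f (X t ω) (X (t + 1) ω) (crossed (fun i => X i ω) t) else 0) ∂P =
        ∫⁻ ω in {ω | ∀ i ≤ t, X i ω = w i}, f (w t) (X (t + 1) ω) (crossed w t) ∂P := by
      refine setLIntegral_congr_fun hA fun ω hω => ?_
      have hω' : ∀ i ≤ t, X i ω = w i := hω
      rw [crossed_congr (w' := w) hω', hω' t le_rfl, if_pos hs]
    have e2 : ∫⁻ ω in {ω | ∀ i ≤ t, X i ω = w i},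
        (if fresh G (X t ω) (crossed (fun i => X i ω) t) = ∅ then
        ∑ y, unif (G.neighborFinset (X t ω)) y * f (X t ω) y (crossed (fun i => X i ω) t)
        else 0) ∂P =
        ∫⁻ ω in {ω | ∀ i ≤ t, X i ω = w i},
          ∑ y, unif (G.neighborFinset (w t)) y * f (w t) y (crossed w t) ∂P := by
      refine setLIntegral_congr_fun hA fun ω hω => ?_
      have hω' : ∀ i ≤ t, X i ω = w i := hω
      rw [crossed_congr (w' := w) hω', hω' t le_rfl, if_pos hs]
    rw [e1, e2, setLIntegral_const, setLIntegral_next hW.meas _ hA (t + 1)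
      (fun y => f (w t) y (crossed w t)), Finset.sum_mul]
    refine Finset.sum_congr rfl fun y _ => ?_
    have hset : {ω | ∀ i ≤ t, X i ω = w i} ∩ {ω | X (t + 1) ω = y} =
        {ω | ∀ i ≤ t + 1, X i ω = Function.update w (t + 1) y i} := by
      ext ω
      simp only [Set.mem_inter_iff, Set.mem_setOf_eq]
      constructor
      · rintro ⟨h1, h2⟩ i hi
        by_cases hi' : i = t + 1
        · subst hi'; simp [h2]
        · rw [Function.update_of_ne hi']
          exact h1 i (by omega)
      · intro h
        refine ⟨fun i hi => ?_, ?_⟩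
        · rw [h i (by omega), Function.update_of_ne (by omega)]
        · rw [h (t + 1) le_rfl, Function.update_self]
    have hset2 : {ω | ∀ i ≤ t, X i ω = Function.update w (t + 1) y i} =
        {ω | ∀ i ≤ t, X i ω = w i} := by
      ext ω
      simp only [Set.mem_setOf_eq]
      refine forall₂_congr fun i hi => ?_
      rw [Function.update_of_ne (by omega)]
    have hwt : Function.update w (t + 1) y t = w t := Function.update_of_ne (by omega) _ _
    have hcr : crossed (Function.update w (t + 1) y) t = crossed w t :=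
      crossed_congr fun i hi => Function.update_of_ne (by omega) _ _
    have := hW.stuck (Function.update w (t + 1) y) t (by rw [hwt, hcr]; exact hs)
    rw [hset, this, hset2, hwt, Function.update_self]
    ring
  · have e1 : ∫⁻ ω in {ω | ∀ i ≤ t, X i ω = w i},
        (if fresh G (X t ω) (crossed (fun i => X i ω) t) = ∅ then
        f (X t ω) (X (t + 1) ω) (crossed (fun i => X i ω) t) else 0) ∂P =
        ∫⁻ ω in {ω | ∀ i ≤ t, X i ω = w i}, 0 ∂P := by
      refine setLIntegral_congr_fun hA fun ω hω => ?_
      have hω' : ∀ i ≤ t, X i ω = w i := hω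
      rw [crossed_congr (w' := w) hω', hω' t le_rfl, if_neg hs]
    have e2 : ∫⁻ ω in {ω | ∀ i ≤ t, X i ω = w i},
        (if fresh G (X t ω) (crossed (fun i => X i ω) t) = ∅ then
        ∑ y, unif (G.neighborFinset (X t ω)) y * f (X t ω) y (crossed (fun i => X i ω) t)
        else 0) ∂P =
        ∫⁻ ω in {ω | ∀ i ≤ t, X i ω = w i}, 0 ∂P := by
      refine setLIntegral_congr_fun hA fun ω hω => ?_
      have hω' : ∀ i ≤ t, X i ω = w i := hω
      rw [crossed_congr (w' := w) hω', hω' t le_rfl, if_neg hs]
    rw [e1, e2]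

/-- The walk moves along edges. -/
lemma ae_adj (hW : IsGreedyWalk G P X x₀) (t : ℕ) :
    ∀ᵐ ω ∂P, G.Adj (X t ω) (X (t + 1) ω) := by
  have h := stuck_identity hW t (fun x y _ => if G.Adj x y then 0 else 1)
  have h0 : ∫⁻ ω, (if fresh G (X t ω) (crossed (fun i => X i ω) t) = ∅ then
        ∑ y, unif (G.neighborFinset (X t ω)) y * (if G.Adj (X t ω) y then (0 : ℝ≥0∞) else 1)
        else 0) ∂P = 0 := by
    rw [lintegral_congr (g := fun _ => 0), lintegral_zero]
    intro ω
    split_ifs with hs
    · apply Finset.sum_eq_zero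
      intro y _
      unfold unif
      by_cases hy : G.Adj (X t ω) y
      · rw [if_pos hy, mul_zero]
      · rw [if_neg, zero_mul]
        simpa using hy
    · rfl
  rw [h0] at h
  have hm : Measurable fun ω => (if fresh G (X t ω) (crossed (fun i => X i ω) t) = ∅ then
        (if G.Adj (X t ω) (X (t + 1) ω) then (0 : ℝ≥0∞) else 1) else 0) := by
    have h1 : MeasurableSet {ω | fresh G (X t ω) (crossed (fun i => X i ω) t) = ∅} := by
      have := measurable_state (X := X) hW.meas t
        (fun x U => if fresh G x U = ∅ then (1 : ℝ≥0∞) else 0)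
      have h2 := this (measurableSet_singleton 1)
      convert h2 using 1
      ext ω
      simp only [Set.mem_setOf_eq, Set.mem_preimage, Set.mem_singleton_iff]
      by_cases hs : fresh G (X t ω) (crossed (fun i => X i ω) t) = ∅ <;> simp [hs]
    have h2 : Measurable fun ω => (if G.Adj (X t ω) (X (t + 1) ω) then (0 : ℝ≥0∞) else 1) := by
      have h3 : Measurable fun ω => (X t ω, X (t + 1) ω) := (hW.meas t).prodMk (hW.meas (t + 1))
      have h4 : Measurable fun p : V × V => (if G.Adj p.1 p.2 then (0 : ℝ≥0∞) else 1) :=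
        Measurable.of_discrete
      exact h4.comp h3
    exact Measurable.ite h1 h2 measurable_const
  rw [lintegral_eq_zero_iff hm] at h
  filter_upwards [h, hW.greedy t] with ω h1 h2
  by_cases hs : fresh G (X t ω) (crossed (fun i => X i ω) t) = ∅
  · simp only [hs, if_true, Pi.zero_apply] at h1
    by_contra hc
    rw [if_neg hc] at h1
    exact one_ne_zero h1
  · have h3 := h2 (Finset.nonempty_iff_ne_empty.2 hs)
    unfold fresh at h3
    rw [Finset.mem_filter, SimpleGraph.mem_neighborFinset] at h3
    exact h3.1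

end Q294.Greedy
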